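import Pool.Agent.H773.IE.SR

/-!
# Project IE: first phase of a round (helper100, for helper773)
-/

set_option autoImplicit false

open MeasureTheory Set Filter Topology
open scoped ENNReal

namespace Pool.Agent.H100.IE.Round1

open Pool.Agent.H773.IE

variable {m : ℕ}

lemma irr_run (hirr : S_irr) (hm : 1 ≤ m) (p : List Bool) :
    ∀ s : Sta m, IrrS s → IrrS (run p s) := by
  induction p with
  | nil => intro s hs; exact hs
  | cons b p ih => intro s hs; exact ih _ (hirr m hm s hs b)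

/-- a path in `B`: bounds for the heights and the probability -/
lemma path_bound (B : Finset (Fin (m + 1))) (θ L : ℝ) (hθ : 0 < θ) (p : List Bool) :
    ∀ (s : Sta m) (q : Fin (m + 1) → ℝ) (K : ℝ), (∀ i, 0 < q i) → (∀ i ∈ B, θ ≤ q i) →
    (∀ i, i ∉ B → q i < θ) → (∀ i, q i ≤ K) → 2 ^ p.length * K ≤ L →
    (∀ p', p' <+: p → p' ≠ p → et (run p' s) ∈ B ∧ eb (run p' s) ∈ B) →
    (θ / (θ + L)) ^ p.length ≤ prP p s q ∧ (∀ i ∈ B, θ ≤ runQ p s q i) ∧
    (∀ i, i ∉ B → runQ p s q i < θ) ∧ ∀ i, runQ p s q i ≤ 2 ^ p.length * K := by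
  induction p with
  | nil =>
    intro s q K _ h1 h2 h3 _ _
    refine ⟨?_, h1, h2, fun i => ?_⟩
    · simp [prP]
    · have := h3 i
      simpa [runQ] using this
  | cons b p ih =>
    intro s q K h0 h1 h2 h3 hL hp
    have hst : et s ∈ B ∧ eb s ∈ B := hp [] List.nil_prefix (by simp)
    have hl : los s b ∈ B := by
      cases b
      · exact hst.1
      · exact hst.2
    have hK0 : 0 < K := lt_of_lt_of_le (h0 (et s)) (h3 (et s))
    have hlen : (2 : ℝ) ^ (b :: p).length * K = 2 ^ p.length * (2 * K) := by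
      rw [List.length_cons, pow_succ]; ring
    have hKL : K ≤ L := by
      have h4 : (1 : ℝ) * K ≤ 2 ^ (b :: p).length * K :=
        mul_le_mul_of_nonneg_right (one_le_pow₀ (by norm_num)) hK0.le
      linarith
    have hL0 : 0 < L := lt_of_lt_of_le hK0 hKL
    have hn1 : ∀ i ∈ B, θ ≤ nxtQ s b q i := by
      intro i hi
      rw [nxtQ, Function.update_apply]
      split_ifs with h
      · have := h1 _ hl
        have := h0 (win s b)
        linarith
      · exact h1 i hi
    have hn2 : ∀ i, i ∉ B → nxtQ s b q i < θ := by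
      intro i hi
      have hne : i ≠ los s b := fun h => hi (by rw [h]; exact hl)
      rw [nxtQ, Function.update_of_ne hne]
      exact h2 i hi
    have hn3 : ∀ i, nxtQ s b q i ≤ 2 * K := by
      intro i
      rw [nxtQ, Function.update_apply]
      split_ifs with h
      · have := h3 (los s b)
        have := h3 (win s b)
        linarith
      · have := h3 i
        linarith
    obtain ⟨r1, r2, r3, r4⟩ := ih (nxt s b) (nxtQ s b q) (2 * K) (nxtQ_pos h0 b) hn1 hn2 hn3
      (by rw [← hlen]; exact hL)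
      (fun p' hp' hne => hp (b :: p') ((List.prefix_cons_inj b).2 hp')
        (fun h => hne (List.cons.inj h).2))
    refine ⟨?_, r2, r3, fun i => ?_⟩
    · rw [List.length_cons, pow_succ, mul_comm, prP]
      have hpr : θ / (θ + L) ≤ pr s b q := by
        rw [pr]
        have e1 := h1 _ hl
        have e2 := h0 (win s b)
        have e3 := h3 (win s b)
        rw [div_le_div_iff₀ (by linarith) (by linarith)]
        have e4 : θ * q (win s b) ≤ q (los s b) * L :=
          mul_le_mul e1 (e3.trans hKL) e2.le (by linarith)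
        nlinarith
      exact mul_le_mul hpr r1 (by positivity) (pr_nonneg s h0 b)
    · rw [hlen]
      exact r4 i

theorem t_round1 (hirr : S_irr) (hpath : S_path) (hmono : S_mono) : S_round1 := by
  intro m hm ρ hρ
  classical
  -- the paths
  have hex : ∀ a : Sta m × Finset (Fin (m + 1)), ∃ p : List Bool, IrrS a.1 → a.2 ≠ Finset.univ →
      (et (run p a.1) ∉ a.2 ∨ eb (run p a.1) ∉ a.2) ∧
      ∀ p', p' <+: p → p' ≠ p → et (run p' a.1) ∈ a.2 ∧ eb (run p' a.1) ∈ a.2 := by
    intro a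
    by_cases h : IrrS a.1 ∧ a.2 ≠ Finset.univ
    · obtain ⟨p, hp⟩ := hpath m hm a.1 h.1 a.2 h.2
      exact ⟨p, fun _ _ => hp⟩
    · exact ⟨[], fun h1 h2 => absurd ⟨h1, h2⟩ h⟩
  choose P hP' using hex
  let N : ℕ := Finset.univ.sup fun a : Sta m × Finset (Fin (m + 1)) => (P a).length
  have hN : ∀ a, (P a).length ≤ N := fun a =>
    Finset.le_sup (f := fun a : Sta m × Finset (Fin (m + 1)) => (P a).length) (Finset.mem_univ a)
  have hN1 : (1 : ℝ) ≤ 2 ^ N := one_le_pow₀ (by norm_num)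
  refine ⟨ENNReal.ofReal ((ρ / (ρ + 2 ^ N)) ^ N), ENNReal.ofReal_pos.2 (by positivity), 2 ^ N, hN1,
    ?_⟩
  intro s hs B hB hB' θ M q hθ hM hq0 hqM hqB hqB'
  obtain ⟨hp1, hp2⟩ := hP' (s, B) hs hB'
  set p := P (s, B) with hp
  have hpN : p.length ≤ N := hN (s, B)
  have hM0 : 0 < M := lt_of_lt_of_le (hq0 0) (hqM 0)
  have hpow : (2 : ℝ) ^ p.length ≤ 2 ^ N := pow_le_pow_right₀ (by norm_num) hpN
  obtain ⟨r1, r2, r3, r4⟩ := path_bound B θ (2 ^ N * M) hθ p s q M hq0 hqB hqB' hqM
    (mul_le_mul_of_nonneg_right hpow hM0.le) hp2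
  refine le_trans (ENNReal.ofReal_le_ofReal ?_) ((hmono m hm _).2 s q hs hq0 p
    ⟨irr_run hirr hm p s hs, runQ_pos hq0 p, r2, r3,
      fun i => (r4 i).trans (mul_le_mul_of_nonneg_right hpow hM0.le), hp1⟩)
  have e1 : ρ / (ρ + 2 ^ N) ≤ θ / (θ + 2 ^ N * M) := by
    rw [div_le_div_iff₀ (by positivity) (by positivity)]
    have : (2 : ℝ) ^ N * (ρ * M) ≤ 2 ^ N * θ := mul_le_mul_of_nonneg_left hM (by positivity)
    nlinarith
  have e2 : ρ / (ρ + 2 ^ N) ≤ 1 := by
    rw [div_le_one (by positivity)]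
    linarith
  calc (ρ / (ρ + 2 ^ N)) ^ N ≤ (ρ / (ρ + 2 ^ N)) ^ p.length :=
        pow_le_pow_of_le_one (by positivity) e2 hpN
    _ ≤ (θ / (θ + 2 ^ N * M)) ^ p.length := pow_le_pow_left₀ (by positivity) e1 _
    _ ≤ prP p s q := r1

end Pool.Agent.H100.IE.Round1
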